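import Pool.Graph.R_pool_sql_team_seeded_ab47071d.TH133.TT.DefsField
import Pool.Graph.R_pool_sql_team_seeded_f72693b1.W492.MT.Defs
import Mathlib.FieldTheory.IsAlgClosed.Basic

/-!
# Motives over fields of a given characteristic: definitions
-/

open CategoryTheory Limits MonoidalCategory Triangulated Pretriangulated

universe u v₁ v₂ u₁ u₂ w

namespace Pool.Agent.KS6_13.PF

open Pool.Agent.TH133.TT (Realised BaseChange Descends)
open Pool.Agent.W492.MT (Setup Lefschetz Bounded)

section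
variable (C : Type u₁) [Category.{v₁} C] [MonoidalCategory C]

/-- the braiding is symmetric -/
def IsSymm [BraidedCategory C] : Prop :=
  ∀ X Y : C, (β_ X Y).hom ≫ (β_ Y X).hom = 𝟙 (X ⊗ Y)

/-- the endomorphisms of the unit are rational numbers -/
def EndUnit [Preadditive C] [Linear ℚ C] : Prop :=
  ∀ e : 𝟙_ C ⟶ 𝟙_ C, ∃ a : ℚ, e = a • 𝟙 (𝟙_ C)

end

/-- A `ℚ`-linear symmetric rigid tensor triangulated category `T` with `End(1) = ℚ`, in which
idempotents split, and tensor triangulated functors `R ℓ : T ⥤ D ℓ`, `ℓ` in `Λ`, to tensor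
triangulated categories with bounded t-structures `s ℓ` compatible with the tensor product. -/
structure Motives (Λ : Type w) extends Realised.{v₁, v₂, u₁, u₂} Λ where
  [isTriangulatedT : IsTriangulated T]
  symmetric : IsSymm T
  [monoidalPreadditiveT : MonoidalPreadditive T]
  [linearT : Linear ℚ T]
  [monoidalLinearT : MonoidalLinear ℚ T]
  scalar : EndUnit T
  [isTriangulatedD : ∀ ℓ, IsTriangulated (D ℓ)]
  bounded : ∀ ℓ : Λ, Bounded (s ℓ)

attribute [instance] Motives.isTriangulatedT Motives.monoidalPreadditiveT Motives.linearT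
  Motives.monoidalLinearT Motives.isTriangulatedD

variable {Λ : Type w}

instance (M : Motives.{v₁, v₂, u₁, u₂} Λ) : SymmetricCategory M.T where
  toBraidedCategory := M.brT
  symmetry := M.symmetric

instance (M : Motives.{v₁, v₂, u₁, u₂} Λ) : RightRigidCategory M.T where
  rightDual := M.dualT

section
variable {D : Type u₂} [Category.{v₂} D] [Preadditive D] [HasZeroObject D]
  [HasShift D ℤ] [∀ n : ℤ, (shiftFunctor D n).Additive] [Pretriangulated D] [IsTriangulated D]
  (s : TStructure D)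

/-- `f` is zero on the cohomology -/
def HZero {A B : D} (f : A ⟶ B) : Prop :=
  ∀ n : ℤ, (s.truncGELE n n).map f = 0

/-- a morphism which is zero on the cohomology is zero -/
def NoGhosts : Prop :=
  ∀ (A B : D) (f : A ⟶ B), HZero s f → f = 0

/-- `f` is the identity on the cohomology in degrees `≥ n` and zero on the cohomology in degrees
`< n`. -/
def IsTopProjector (n : ℤ) {A : D} (f : A ⟶ A) : Prop :=
  ∀ j : ℤ, (n ≤ j → (s.truncGELE j j).map f = 𝟙 _) ∧ (j < n → (s.truncGELE j j).map f = 0)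

end

/-- For an algebraically closed field: `𝒞` is the class of Chow motives, and the target of the
realisation is the bounded derived category of vector spaces. -/
structure IsGeometric (M : Motives.{v₁, v₂, u₁, u₂} Λ) (𝒞 : ObjectProperty M.T) : Prop where
  setup : Setup M.R M.s 𝒞 ℚ
  lefschetz : Lefschetz M.R M.s 𝒞
  /-- a morphism of `D ℓ` which is zero on the cohomology is zero -/
  semisimple : ∀ ℓ : Λ, NoGhosts (M.s ℓ)

section
variable {C : Type u₁} [Category.{v₁} C] [MonoidalCategory C]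
  {E : Type u₂} [Category.{v₂} E] [MonoidalCategory E]

/-- The action of `y : 1 ⟶ R Q` through `w : A ⊗ Q ⟶ B`: the composition
`R A ≅ R A ⊗ 1 ⟶ R A ⊗ R Q ≅ R (A ⊗ Q) ⟶ R B`. -/
noncomputable def act (R : C ⥤ E) [R.Monoidal] {Q A B : C} (y : 𝟙_ E ⟶ R.obj Q)
    (w : A ⊗ Q ⟶ B) : R.obj A ⟶ R.obj B :=
  (ρ_ (R.obj A)).inv ≫ (R.obj A ◁ y) ≫ Functor.LaxMonoidal.μ R A Q ≫ R.map w

/-- The fibre functor `fib` at a rational point is a retraction of the inverse image `pull`. -/
structure RatPoint (pull : C ⥤ E) [pull.Monoidal] (fib : E ⥤ C) [fib.Monoidal] where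
  /-- the rational point is a section -/
  iso : pull ⋙ fib ≅ 𝟭 C
  unit : (Functor.LaxMonoidal.ε fib ≫ fib.map (Functor.LaxMonoidal.ε pull)) ≫
    iso.hom.app (𝟙_ C) = 𝟙 (𝟙_ C)

/-- The morphism `fib X ⊗ Q ≅ fib (X ⊗ pull Q) ⟶ fib X` given by `q`. -/
noncomputable def fibMor {pull : C ⥤ E} [pull.Monoidal] {fib : E ⥤ C} [fib.Monoidal]
    (i : RatPoint pull fib) {X : E} {Q : C} (q : X ⊗ pull.obj Q ⟶ X) :
    fib.obj X ⊗ Q ⟶ fib.obj X :=
  (fib.obj X ◁ i.iso.inv.app Q) ≫ Functor.LaxMonoidal.μ fib X (pull.obj Q) ≫ fib.map q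

end

/-- the `ℓ`-adic realisation of `X` is `≤ n` -/
def Motives.Le (N : Motives.{v₁, v₂, u₁, u₂} Λ) (ℓ : Λ) (n : ℤ) (X : N.T) : Prop :=
  (N.s ℓ).le n ((N.R ℓ).obj X)

/-- the `ℓ`-adic realisation of `X` is `≥ n` -/
def Motives.Ge (N : Motives.{v₁, v₂, u₁, u₂} Λ) (ℓ : Λ) (n : ℤ) (X : N.T) : Prop :=
  (N.s ℓ).ge n ((N.R ℓ).obj X)

/-- the `ℓ`-adic realisation of `f` is zero -/
def Motives.Null (N : Motives.{v₁, v₂, u₁, u₂} Λ) (ℓ : Λ) {X Y : N.T} (f : X ⟶ Y) : Prop :=
  (N.R ℓ).map f = 0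

/-- `f` is zero on the `ℓ`-adic cohomology -/
def Motives.HNull (N : Motives.{v₁, v₂, u₁, u₂} Λ) (ℓ : Λ) {X Y : N.T} (f : X ⟶ Y) : Prop :=
  HZero (N.s ℓ) ((N.R ℓ).map f)

/-- `F` does not change the degrees in which the realisations live -/
def SameDegrees {N N' : Motives.{v₁, v₂, u₁, u₂} Λ} (F : N.T ⥤ N'.T) : Prop :=
  ∀ (ℓ : Λ) (n : ℤ) (X : N.T),
    (N'.Le ℓ n (F.obj X) ↔ N.Le ℓ n X) ∧ (N'.Ge ℓ n (F.obj X) ↔ N.Ge ℓ n X)

/-- The functors between motives over a smooth connected variety `V` over `k` with a rational point,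
motives over `k` and motives over a field `K` with a morphism from `Spec K` to the generic point
of `V`. -/
structure ModelData (M M' : Motives.{v₁, v₂, u₁, u₂} Λ) where
  /-- the objects of `DM_c(V)` with a dual, and their realisations -/
  V : Motives.{v₁, v₂, u₁, u₂} Λ
  /-- the inverse image from `k` to `V` -/
  pull : M.T ⥤ V.T
  [pullMonoidal : pull.Monoidal]
  /-- the direct image from `V` to `k` -/
  push : V.T ⥤ M.T
  /-- adjunction -/
  adj : pull ⊣ push
  /-- the fibre at the rational point -/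
  fib : V.T ⥤ M.T
  [fibMonoidal : fib.Monoidal]
  [fibAdditive : fib.Additive]
  /-- the rational point is a section -/
  point : RatPoint pull fib
  /-- the generic fibre, over `K` -/
  gen : V.T ⥤ M'.T
  [genAdditive : gen.Additive]

attribute [instance] ModelData.pullMonoidal ModelData.fibMonoidal ModelData.fibAdditive
  ModelData.genAdditive

/-- Motives over a smooth connected variety `V` over `k`: the properties of the realisations. -/
structure Model (M M' : Motives.{v₁, v₂, u₁, u₂} Λ) extends ModelData M M' where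
  fib_deg : SameDegrees fib
  gen_deg : SameDegrees gen
  push_ge : ∀ (ℓ : Λ) (n : ℤ) (X : V.T), V.Ge ℓ n X → M.Ge ℓ n (push.obj X)
  push_zero : ∀ (ℓ : Λ) (X Y : V.T) (f : X ⟶ Y), V.Null ℓ f → M.Null ℓ (push.map f)
  fib_faithful : ∀ (ℓ : Λ) (X Y : V.T) (f : X ⟶ Y), M.Null ℓ (fib.map f) → V.HNull ℓ f
  gen_faithful : ∀ (ℓ : Λ) (X Y : V.T) (f : X ⟶ Y), V.Le ℓ 0 X → V.Ge ℓ 0 Y →
    M'.Null ℓ (gen.map f) → V.Null ℓ f

/-- The theorem of the fixed part for the object `X` over the variety `V`: the projector of the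
cohomology of the fibre of `X` on the part of degree `≥ n` comes from a Chow motive `Q` over `k` and
a morphism `q : X ⊗ pull Q ⟶ X` over `V`, independent of `ℓ`. -/
def ModelData.FixedPart {M M' : Motives.{v₁, v₂, u₁, u₂} Λ} (m : ModelData M M')
    (𝒞 : ObjectProperty M.T) (X : m.V.T) : Prop :=
  ∀ n : ℤ, ∃ (Q : M.T) (q : X ⊗ m.pull.obj Q ⟶ X), 𝒞 Q ∧
    ∀ ℓ : Λ, ∃ y : 𝟙_ (M.D ℓ) ⟶ (M.R ℓ).obj Q,
      IsTopProjector (M.s ℓ) n (act (M.R ℓ) y (fibMor m.point q))

/-- `SpreadsOut`: the morphisms and the Chow motives over `K` are defined over models. -/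
structure SpreadsOut (M M' : Motives.{v₁, v₂, u₁, u₂} Λ) (𝒞 : ObjectProperty M.T)
    (𝒞' : ObjectProperty M'.T) : Prop where
  arrow : ∀ {A B : M'.T} (f : A ⟶ B), ∃ (m : Model M M') (X Y : m.V.T) (g : X ⟶ Y),
    Nonempty (Arrow.mk f ≅ Arrow.mk (m.gen.map g))
  chow : ∀ A : M'.T, 𝒞' A → ∃ (m : Model M M') (X : m.V.T), 𝒞 (m.fib.obj X) ∧
    m.FixedPart 𝒞 X ∧ Nonempty (A ≅ m.gen.obj X)

/-- Motives over all fields of characteristic `p`. -/
structure System (p : ℕ) (Λ : Type w) where
  /-- the motives over `k` -/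
  obj : ∀ (k : Type u) [Field k] [CharP k p], Motives.{v₁, v₂, u₁, u₂} Λ
  /-- base change -/
  map : ∀ {k K : Type u} [Field k] [CharP k p] [Field K] [CharP K p] (_ : k →+* K),
    BaseChange (obj k).toRealised (obj K).toRealised
  faithful : ∀ {k K : Type u} [Field k] [CharP k p] [Field K] [CharP K p] (φ : k →+* K),
    (map φ).P.Faithful
  specialises : ∀ {k K : Type u} [Field k] [CharP k p] [Field K] [CharP K p] (φ : k →+* K),
    (map φ).Specialises
  algebraic : ∀ {k K : Type u} [Field k] [CharP k p] [Field K] [CharP K p] [Algebra k K]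
    [Algebra.IsAlgebraic k K], Descends fun _ : Unit => map (algebraMap k K)
  finitelyGenerated : ∀ (K : Type u) [Field K] [CharP K p],
    Descends fun k : {k : Subfield K // ∃ s : Set K, s.Finite ∧ k = Subfield.closure s} =>
      map k.1.subtype
  /-- the Chow motives over an algebraically closed field -/
  chow : ∀ (k : Type u) [Field k] [CharP k p] [IsAlgClosed k], ObjectProperty (obj k).T
  isGeometric : ∀ (k : Type u) [Field k] [CharP k p] [IsAlgClosed k],
    IsGeometric (obj k) (chow k)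
  spreadsOut : ∀ {k K : Type u} [Field k] [CharP k p] [IsAlgClosed k] [Field K] [CharP K p]
    [IsAlgClosed K] (_ : k →+* K), SpreadsOut (obj k) (obj K) (chow k) (chow K)

end Pool.Agent.KS6_13.PF
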