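import Pool.Agent.KS6_13.PF.Defs
import Pool.Graph.R_pool_sql_team_seeded_f72693b1.W492.PC.Fin
import Pool.Graph.R_pool_sql_team_seeded_ab47071d.TH133.TT.Fields

/-!
# Motives over one field
-/

set_option linter.unusedSectionVars false
set_option linter.style.haveILetI false

open CategoryTheory Limits MonoidalCategory Triangulated Pretriangulated

universe u v₁ v₂ u₁ u₂ w

namespace Pool.Agent.KS6_13.PF

open Pool.Agent.TH133.TT (IsNondegenerate IsTensorCompatible IsTExact)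
open Pool.Agent.W492.TS Pool.Agent.W492.PC

variable {Λ : Type w} {M : Motives.{v₁, v₂, u₁, u₂} Λ}

theorem isTensorCompatible_of_tensorExact {t : TStructure M.T} (h : TensorExact t) :
    IsTensorCompatible t := by
  constructor
  · intro X Y m n hX hY
    have h1 : t.le 0 (X⟦m⟧ ⊗ Y⟦n⟧) :=
      (h _ _).1 (t.le_shift m m 0 (by ring) _ hX) (t.le_shift n n 0 (by ring) _ hY)
    have h2 : t.le 0 ((X ⊗ Y)⟦m + n⟧) := (t.le 0).prop_of_iso (tensorShiftIso X Y m n _ rfl) h1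
    have h3 : t.IsLE ((X ⊗ Y)⟦m + n⟧) 0 := ⟨h2⟩
    exact (t.isLE_of_shift (X ⊗ Y) (m + n) (m + n) 0).le
  · intro X Y m n hX hY
    have h1 : t.ge 0 (X⟦m⟧ ⊗ Y⟦n⟧) :=
      (h _ _).2 (t.ge_shift m m 0 (by ring) _ hX) (t.ge_shift n n 0 (by ring) _ hY)
    have h2 : t.ge 0 ((X ⊗ Y)⟦m + n⟧) := (t.ge 0).prop_of_iso (tensorShiftIso X Y m n _ rfl) h1
    have h3 : t.IsGE ((X ⊗ Y)⟦m + n⟧) 0 := ⟨h2⟩
    exact (t.isGE_of_shift (X ⊗ Y) (m + n) (m + n) 0).ge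

/-- the two formulations of the question agree -/
theorem hasMotivicTStructure_iff :
    M.toRealised.HasMotivicTStructure ↔ HasMotivicTStructure M.R M.s := by
  constructor
  · rintro ⟨t, h1, h2, h3⟩
    refine ⟨t, ⟨h1.le, h1.ge⟩, fun X Y => ⟨fun hX hY => ?_, fun hX hY => ?_⟩,
      fun ℓ n X => ⟨(h3 ℓ).le X n, (h3 ℓ).ge X n⟩⟩
    · have := h2.le X Y 0 0 hX hY
      rwa [add_zero] at this
    · have := h2.ge X Y 0 0 hX hY
      rwa [add_zero] at this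
  · rintro ⟨t, h1, h2, h3⟩
    exact ⟨t, ⟨h1.1, h1.2⟩, isTensorCompatible_of_tensorExact h2,
      fun ℓ => ⟨fun X n => (h3 ℓ n X).1, fun X n => (h3 ℓ n X).2⟩⟩

/-- The properties of a motivic t-structure. -/
structure Good (M : Motives.{v₁, v₂, u₁, u₂} Λ) (t : TStructure M.T) : Prop where
  motivic : Motivic M.R M.s t
  tensor : IsTensorCompatible t
  zero : ∀ (ℓ : Λ) (X : M.T), IsZero ((M.R ℓ).obj X) → IsZero X
  le_iff : ∀ (ℓ : Λ) (n : ℤ) (X : M.T), t.le n X ↔ (M.s ℓ).le n ((M.R ℓ).obj X)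
  ge_iff : ∀ (ℓ : Λ) (n : ℤ) (X : M.T), t.ge n X ↔ (M.s ℓ).ge n ((M.R ℓ).obj X)
  unit_le : t.le 0 (𝟙_ M.T)
  unit_ge : t.ge 0 (𝟙_ M.T)

theorem exists_good (h : M.toRealised.HasMotivicTStructure) : ∃ t, Good M t := by
  obtain ⟨t, h1, h2, h3⟩ := hasMotivicTStructure_iff.1 h
  have hm : Motivic M.R M.s t := ⟨h1, h2.heart, h3⟩
  have hz : ∀ (ℓ : Λ) (X : M.T), IsZero ((M.R ℓ).obj X) → IsZero X := fun ℓ X hX =>
    hm.isZero M.connected M.unit_ne ℓ X hX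
  have hu := unit_mem_heart h1 h2.heart
  exact ⟨t, hm, isTensorCompatible_of_tensorExact h2, hz,
    fun ℓ n X => hm.le_iff ℓ (hz ℓ) n X, fun ℓ n X => hm.ge_iff ℓ (hz ℓ) n X, hu.1.le, hu.2.ge⟩

section
variable {t : TStructure M.T} (ht : Good M t)
include ht

theorem Good.faithful (ℓ : Λ) {X Y : M.T} (g : X ⟶ Y) (hX : t.le 0 X) (hY : t.ge 0 Y)
    (hg : (M.R ℓ).map g = 0) : g = 0 :=
  faithful_on_heart (M.R ℓ) (ht.motivic.2.2 ℓ) (ht.zero ℓ) hX hY g hg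

theorem Good.hom_zero {X Y : M.T} {m n : ℤ} (h : m < n) (hX : t.le m X) (hY : t.ge n Y)
    (f : X ⟶ Y) : f = 0 :=
  t.zero_of_isLE_of_isGE f m n h ⟨hX⟩ ⟨hY⟩

/-- objects dual to each other -/
theorem Good.ge_dual {X Y : M.T} [ExactPairing Y X] {n : ℤ} (hX : t.le n X) : t.ge (-n) Y := by
  rw [t.ge_iff_isGE, t.isGE_iff_orthogonal (-n - 1) (-n) (by ring)]
  intro Z f hZ
  have h1 : t.le (n + (-n - 1)) (X ⊗ Z) := ht.tensor.le _ _ _ _ hX hZ.le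
  have h2 : ∀ g : X ⊗ Z ⟶ 𝟙_ M.T, g = 0 := fun g => ht.hom_zero (by omega) h1 ht.unit_ge g
  have h3 : f ≫ (ρ_ Y).inv = 0 := by
    apply (tensorLeftHomEquiv Z Y X (𝟙_ M.T)).symm.injective
    rw [h2 ((tensorLeftHomEquiv Z Y X (𝟙_ M.T)).symm (f ≫ (ρ_ Y).inv)), h2 ((tensorLeftHomEquiv Z Y X (𝟙_ M.T)).symm 0)]
  rw [← cancel_mono (ρ_ Y).inv, h3, zero_comp]

end

end Pool.Agent.KS6_13.PF
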