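import Mathlib.CategoryTheory.Monoidal.Rigid.Braided
import Mathlib.CategoryTheory.Monoidal.Functor

/-!
# Insertion of morphisms from the unit
-/

open CategoryTheory MonoidalCategory

universe v₁ v₂ u₁ u₂

namespace Pool.Agent.KS6_13.PF

open Functor.LaxMonoidal Functor.OplaxMonoidal

variable {C : Type u₁} [Category.{v₁} C] [MonoidalCategory C]
  {E : Type u₂} [Category.{v₂} E] [MonoidalCategory E]

/-- insertion of `u : 1 ⟶ Z` into `q : X ⊗ Z ⟶ Y`. -/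
def ins {X Y Z : C} (u : 𝟙_ C ⟶ Z) (q : X ⊗ Z ⟶ Y) : X ⟶ Y := (ρ_ X).inv ≫ (X ◁ u) ≫ q

theorem ins_comp {X Y Z Z' : C} (u : 𝟙_ C ⟶ Z) (v : Z ⟶ Z') (q : X ⊗ Z' ⟶ Y) :
    ins (u ≫ v) q = ins u ((X ◁ v) ≫ q) := by
  simp [ins]

theorem map_ins (F : C ⥤ E) [F.Monoidal] {X Y Z : C} (u : 𝟙_ C ⟶ Z) (q : X ⊗ Z ⟶ Y) :
    F.map (ins u q) = ins (ε F ≫ F.map u) (μ F X Z ≫ F.map q) := by
  unfold ins
  rw [F.map_comp, F.map_comp, ← right_unitality_inv, MonoidalCategory.whiskerLeft_comp]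
  simp only [Category.assoc]
  rw [μ_natural_right_assoc]

/-- the transpose of `w : X ⊗ Q ⟶ Z`. -/
def sharp {X Y Q Z : C} [ExactPairing Y X] (w : X ⊗ Q ⟶ Z) : Q ⟶ Y ⊗ Z :=
  tensorLeftHomEquiv Q Y X Z w

theorem sharp_injective {X Y Q Z : C} [ExactPairing Y X] :
    Function.Injective (sharp : (X ⊗ Q ⟶ Z) → (Q ⟶ Y ⊗ Z)) :=
  (tensorLeftHomEquiv Q Y X Z).injective

theorem comp_sharp {X Y Q Q' Z : C} [ExactPairing Y X] (v : Q' ⟶ Q) (w : X ⊗ Q ⟶ Z) :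
    v ≫ (sharp w : Q ⟶ Y ⊗ Z) = sharp ((X ◁ v) ≫ w) := by
  unfold sharp tensorLeftHomEquiv
  simp only [Equiv.coe_fn_mk]
  rw [leftUnitor_inv_naturality_assoc, whisker_exchange_assoc]
  simp

theorem whisker_aux (A B : C) {Q : C} (y : 𝟙_ C ⟶ Q) :
    (A ◁ (ρ_ B).inv) ≫ (A ◁ B ◁ y) ≫ (α_ A B Q).inv =
      (ρ_ (A ⊗ B)).inv ≫ ((A ⊗ B) ◁ y) := by
  simp

theorem map_sharp (F : C ⥤ E) [F.Monoidal] {X Y Q Z : C} [ExactPairing Y X]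
    (y : 𝟙_ E ⟶ F.obj Q) (w : X ⊗ Q ⟶ Z) :
    y ≫ F.map (sharp w : Q ⟶ Y ⊗ Z) = (ε F ≫ F.map (η_ Y X) ≫ δ F Y X) ≫
      (F.obj Y ◁ ins y (μ F X Q ≫ F.map w)) ≫ μ F Y Z := by
  unfold sharp tensorLeftHomEquiv ins
  simp only [Equiv.coe_fn_mk, MonoidalCategory.whiskerLeft_comp, Category.assoc]
  rw [μ_natural_right]
  have h1 : F.obj Y ◁ μ F X Q ≫ μ F Y (X ⊗ Q) ≫ F.map (Y ◁ w) =
      (α_ (F.obj Y) (F.obj X) (F.obj Q)).inv ≫ (μ F Y X ▷ F.obj Q) ≫ μ F (Y ⊗ X) Q ≫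
        F.map (α_ Y X Q).hom ≫ F.map (Y ◁ w) := by
    rw [Functor.LaxMonoidal.associativity_assoc]
    simp
  rw [h1]
  have h2 : (F.obj Y ◁ (ρ_ (F.obj X)).inv) ≫ (F.obj Y ◁ F.obj X ◁ y) ≫
      (α_ (F.obj Y) (F.obj X) (F.obj Q)).inv =
      (ρ_ (F.obj Y ⊗ F.obj X)).inv ≫ ((F.obj Y ⊗ F.obj X) ◁ y) :=
    whisker_aux _ _ y
  have h3 : (ρ_ (F.obj Y ⊗ F.obj X)).inv ≫ ((F.obj Y ⊗ F.obj X) ◁ y) ≫ (μ F Y X ▷ F.obj Q) =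
      μ F Y X ≫ (ρ_ (F.obj (Y ⊗ X))).inv ≫ (F.obj (Y ⊗ X) ◁ y) := by
    rw [whisker_exchange, rightUnitor_inv_naturality_assoc]
  rw [reassoc_of% h2, reassoc_of% h3]
  rw [Functor.Monoidal.δ_μ_assoc]
  have h4 : (ε F ≫ F.map (η_ Y X)) ≫ (ρ_ (F.obj (Y ⊗ X))).inv ≫ (F.obj (Y ⊗ X) ◁ y) =
      y ≫ (λ_ (F.obj Q)).inv ≫ ((ε F ≫ F.map (η_ Y X)) ▷ F.obj Q) := by
    rw [rightUnitor_inv_naturality_assoc, ← whisker_exchange, leftUnitor_inv_naturality_assoc]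
    rw [← unitors_inv_equal]
  have h5 : ε F ≫ F.map (η_ Y X) ≫ (ρ_ (F.obj (Y ⊗ X))).inv ≫ (F.obj (Y ⊗ X) ◁ y) ≫
      μ F (Y ⊗ X) Q = y ≫ F.map (λ_ Q).inv ≫ F.map (η_ Y X ▷ Q) := by
    have h6 := congrArg (· ≫ μ F (Y ⊗ X) Q) h4
    simp only [Category.assoc] at h6
    rw [h6, comp_whiskerRight, Category.assoc, μ_natural_left, left_unitality_inv_assoc]
  rw [reassoc_of% h5]
  simp

end Pool.Agent.KS6_13.PF
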