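import Pool.Agent.KS6_13.PF.Nilp
import Pool.Graph.R_pool_sql_team_seeded_f72693b1.W492.PC.Proj

/-!
# Kuenneth decompositions over a model
-/

set_option linter.unusedSectionVars false
set_option linter.style.haveILetI false

open CategoryTheory Limits MonoidalCategory Triangulated Pretriangulated ZeroObject

universe u v₁ v₂ u₁ u₂ w

namespace Pool.Agent.KS6_13.PF

open Pool.Agent.TH133.TT (IsNondegenerate IsTensorCompatible IsTExact)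
open Pool.Agent.W492.TS Pool.Agent.W492.PC
open Functor.LaxMonoidal Functor.OplaxMonoidal

variable {Λ : Type w} {M M' : Motives.{v₁, v₂, u₁, u₂} Λ} {𝒞 : ObjectProperty M.T}

theorem Good.spl [Nonempty Λ] {t : TStructure M.T} (ht : Good M t) (hM : IsGeometric M 𝒞)
    {X : M.T} (hX : 𝒞 X) : Spl t X := by
  obtain ⟨n, hn⟩ := ht.kunneth hM X hX
  clear hX
  have ℓ : Λ := Classical.arbitrary Λ
  induction n generalizing X with
  | zero =>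
    have h0 : IsZero X := hn
    exact fun n => ⟨0, ((t.truncLE n).map_isZero h0).eq_of_src _ _⟩
  | succ n ih =>
    obtain ⟨A, B, ⟨d, hA⟩, hB, ⟨e⟩⟩ := hn
    have hA' : Spl t A := Spl.of_deg ⟨(ht.le_iff ℓ d A).2 (hA.2.1 ℓ)⟩
      ⟨(ht.ge_iff ℓ d A).2 (hA.2.2 ℓ)⟩
    exact Spl.retract (Retract.ofIso e) (hA'.biprod (ih hB))

section
variable {D : Type u₂} [Category.{v₂} D] [Preadditive D] [HasZeroObject D]
    [HasShift D ℤ] [∀ n : ℤ, (shiftFunctor D n).Additive] [Pretriangulated D] [IsTriangulated D]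
    (s : TStructure D)

theorem IsTopProjector.sub_eq_zero {n : ℤ} {A : D} {f g : A ⟶ A} (hf : IsTopProjector s n f)
    (hg : IsTopProjector s n g) (j : ℤ) : (s.truncGELE j j).map (f - g) = 0 := by
  rw [Functor.map_sub]
  by_cases hj : n ≤ j
  · rw [(hf j).1 hj, (hg j).1 hj, sub_self]
  · rw [(hf j).2 (by omega), (hg j).2 (by omega), sub_self]

end

theorem IsGeometric.eq_of_top (hM : IsGeometric M 𝒞) (ℓ : Λ) {n : ℤ} {A : M.D ℓ} {f g : A ⟶ A}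
    (hf : IsTopProjector (M.s ℓ) n f) (hg : IsTopProjector (M.s ℓ) n g) : f = g :=
  sub_eq_zero.1 (hM.semisimple ℓ _ _ _ (hf.sub_eq_zero (M.s ℓ) hg))

theorem Good.exists_top [Nonempty Λ] {t : TStructure M.T} (ht : Good M t)
    (hM : IsGeometric M 𝒞) {X : M.T} (hX : 𝒞 X) (n : ℤ) :
    ∃ e : X ⟶ X, e ≫ e = e ∧ ∀ ℓ, IsTopProjector (M.s ℓ) n ((M.R ℓ).map e) := by
  obtain ⟨ρ, hρ⟩ := ht.spl hM hX (n - 1)
  obtain ⟨ι, hι⟩ : ∃ ι : (t.truncLE (n - 1)).obj X ⟶ X, ι = (t.truncLEι (n - 1)).app X := ⟨_, rfl⟩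
  rw [← hι] at hρ
  have h1 : (ρ ≫ ι) ≫ ρ ≫ ι = ρ ≫ ι := by
    rw [Category.assoc, reassoc_of% hρ]
  refine ⟨𝟙 X - ρ ≫ ι, ?_, fun ℓ j => ⟨fun hj => ?_, fun hj => ?_⟩⟩
  · simp only [Preadditive.sub_comp, Preadditive.comp_sub, Category.id_comp, Category.comp_id, h1]
    abel
  · have h2 : IsZero (((M.s ℓ).truncGELE j j).obj ((M.R ℓ).obj ((t.truncLE (n - 1)).obj X))) := by
      refine isZero_H_of_le (M.s ℓ) (m := n - 1) (by omega) ⟨?_⟩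
      exact (ht.le_iff ℓ _ _).1 (inferInstance : t.IsLE ((t.truncLE (n - 1)).obj X) (n - 1)).le
    rw [Functor.map_sub, Functor.map_sub, CategoryTheory.Functor.map_id,
      CategoryTheory.Functor.map_id, Functor.map_comp, Functor.map_comp, h2.eq_of_tgt
      (((M.s ℓ).truncGELE j j).map ((M.R ℓ).map ρ)) 0, zero_comp, sub_zero]
  · haveI : IsIso (((M.s ℓ).truncGELE j j).map ((M.R ℓ).map ι)) := by
      rw [hι]
      exact isIso_H_map_ι (M.R ℓ) (ht.motivic.2.2 ℓ) X j (n - 1) (by omega)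
    rw [← cancel_epi (((M.s ℓ).truncGELE j j).map ((M.R ℓ).map ι)),
      ← Functor.map_comp, ← Functor.map_comp, Preadditive.comp_sub, Category.comp_id,
      reassoc_of% hρ, sub_self, Functor.map_zero, Functor.map_zero, comp_zero]

namespace Model

variable (m : Model M M') {t : TStructure M.T} (ht : Good M t)

/-- the action of `y' : 1 ⟶ Q` on `X`. -/
noncomputable def lift {X : m.V.T} {Q : M.T} (q : X ⊗ m.pull.obj Q ⟶ X) (y : 𝟙_ M.T ⟶ Q) :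
    X ⟶ X := ins (ε m.pull ≫ m.pull.map y) q

theorem fib_lift {X : m.V.T} {Q : M.T} (q : X ⊗ m.pull.obj Q ⟶ X) (y : 𝟙_ M.T ⟶ Q) :
    m.fib.map (m.lift q y) = ins y (fibMor m.point q) := by
  unfold lift fibMor
  rw [map_ins, ← ins_comp]
  congr 1
  have h1 : y ≫ m.point.iso.inv.app Q =
      m.point.iso.inv.app (𝟙_ M.T) ≫ m.fib.map (m.pull.map y) := m.point.iso.inv.naturality y
  have h2 : m.point.iso.inv.app (𝟙_ M.T) = ε m.fib ≫ m.fib.map (ε m.pull) := by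
    have h4 : (ε m.fib ≫ m.fib.map (ε m.pull)) ≫ m.point.iso.hom.app (𝟙_ M.T) = 𝟙 _ :=
      m.point.unit
    have h5 : m.point.iso.inv.app (𝟙_ M.T) ≫ m.point.iso.hom.app (𝟙_ M.T) = 𝟙 _ :=
      m.point.iso.inv_hom_id_app _
    exact (cancel_mono (m.point.iso.hom.app (𝟙_ M.T))).1 (h5.trans h4.symm)
  rw [h1, h2, Functor.map_comp, Category.assoc]

include ht

theorem exists_idem [Nonempty Λ] (hM : IsGeometric M 𝒞) (ℓ : Λ) {X : m.V.T}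
    (hX : 𝒞 (m.fib.obj X)) (hX' : m.FixedPart 𝒞 X) (n : ℤ) : ∃ e : X ⟶ X, e ≫ e = e ∧ IsTopProjector (M.s ℓ) n ((M.R ℓ).map (m.fib.map e)) := by
  obtain ⟨e, he, hen⟩ := ht.exists_top hM hX n
  obtain ⟨Q, q, hQ, hq⟩ := hX' n
  obtain ⟨y, hy⟩ := hq ℓ
  have h1 := hM.eq_of_top ℓ hy (hen ℓ)
  obtain ⟨y', hy'⟩ := exists_lift ht hM ℓ hX hQ _ e y h1
  rw [← fib_lift] at hy'
  let φ : End X →+* End ((M.R ℓ).obj (m.fib.obj X)) :=
    { (m.fib ⋙ M.R ℓ).mapEnd X with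
      map_zero' := (m.fib ⋙ M.R ℓ).map_zero X X
      map_add' := fun f g => (m.fib ⋙ M.R ℓ).map_add }
  have hφ : ∀ f : End X, φ f = (M.R ℓ).map (m.fib.map (f : X ⟶ X)) := fun f => rfl
  obtain ⟨e', he', hee'⟩ := exists_isIdempotentElem_eq_of_ker_isNilpotent φ
    (fun f hf => m.isNilpotent ht ℓ f hf) ((M.R ℓ).map e) ⟨m.lift q y', hy'⟩ (by
      change (M.R ℓ).map e ≫ (M.R ℓ).map e = (M.R ℓ).map e
      rw [← Functor.map_comp, he])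
  refine ⟨e', he', ?_⟩
  have h2 : (M.R ℓ).map (m.fib.map (e' : X ⟶ X)) = (M.R ℓ).map e := hee'
  rw [h2]
  exact hen ℓ

/-- **Kuenneth decomposition** over a model. -/
theorem exists_decomp [Nonempty Λ] (hM : IsGeometric M 𝒞) {X : m.V.T}
    (hX : 𝒞 (m.fib.obj X)) (hX' : m.FixedPart 𝒞 X) (n : ℤ) : ∃ (X₁ X₂ : m.V.T), Nonempty (X ≅ X₁ ⊞ X₂) ∧
      t.ge n (m.fib.obj X₁) ∧ t.le (n - 1) (m.fib.obj X₂) := by
  have ℓ : Λ := Classical.arbitrary Λ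
  obtain ⟨e, he, hen⟩ := m.exists_idem ht hM ℓ hX hX' n
  obtain ⟨X₁, i₁, p₁, h₁, h₁'⟩ := IsIdempotentComplete.idempotents_split X e he
  obtain ⟨X₂, i₂, p₂, h₂, h₂'⟩ := IsIdempotentComplete.idempotents_split X (𝟙 X - e) (by
    simp only [Preadditive.sub_comp, Preadditive.comp_sub, Category.id_comp, Category.comp_id, he]
    abel)
  have h12 : i₁ ≫ p₂ = 0 := by
    have h3 : i₁ ≫ p₂ = (i₁ ≫ p₁ ≫ i₁) ≫ (p₂ ≫ i₂ ≫ p₂) := by
      rw [reassoc_of% h₁, h₂, Category.comp_id]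
    rw [h3]
    have h4 : (i₁ ≫ p₁ ≫ i₁) ≫ (p₂ ≫ i₂ ≫ p₂) = i₁ ≫ ((p₁ ≫ i₁) ≫ (p₂ ≫ i₂)) ≫ p₂ := by
      simp only [Category.assoc]
    rw [h4, h₁', h₂', Preadditive.comp_sub, he, Category.comp_id, sub_self, zero_comp, comp_zero]
  have h21 : i₂ ≫ p₁ = 0 := by
    have h3 : i₂ ≫ p₁ = (i₂ ≫ p₂ ≫ i₂) ≫ (p₁ ≫ i₁ ≫ p₁) := by
      rw [reassoc_of% h₂, h₁, Category.comp_id]
    rw [h3]
    have h4 : (i₂ ≫ p₂ ≫ i₂) ≫ (p₁ ≫ i₁ ≫ p₁) = i₂ ≫ ((p₂ ≫ i₂) ≫ (p₁ ≫ i₁)) ≫ p₁ := by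
      simp only [Category.assoc]
    rw [h4, h₁', h₂', Preadditive.sub_comp, he, Category.id_comp, sub_self, zero_comp, comp_zero]
  refine ⟨X₁, X₂, ⟨⟨biprod.lift p₁ p₂, biprod.desc i₁ i₂, ?_, ?_⟩⟩, ?_, ?_⟩
  · rw [biprod.lift_desc, h₁', h₂']
    abel
  · ext <;> simp [h₁, h₂, h12, h21]
  · rw [ht.ge_iff ℓ]
    obtain ⟨-, a, ha⟩ := M.bounded ℓ ((M.R ℓ).obj (m.fib.obj X₁))
    refine (isGE_of_H (M.s ℓ) a ⟨ha⟩ fun j hj => ?_).ge
    let Φ : m.V.T ⥤ M.D ℓ := m.fib ⋙ M.R ℓ ⋙ (M.s ℓ).truncGELE j j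
    have h3 : Φ.map e = 0 := (hen j).2 hj
    have h4 : Φ.map (𝟙 X₁) = 0 := by
      have h5 : 𝟙 X₁ = i₁ ≫ e ≫ p₁ := by
        rw [← h₁', Category.assoc, h₁, Category.comp_id, h₁]
      rw [h5, Functor.map_comp, Functor.map_comp, h3, zero_comp, comp_zero]
    rw [CategoryTheory.Functor.map_id] at h4
    exact (IsZero.iff_id_eq_zero _).2 h4
  · rw [ht.le_iff ℓ]
    obtain ⟨⟨b, hb⟩, -⟩ := M.bounded ℓ ((M.R ℓ).obj (m.fib.obj X₂))
    refine (isLE_of_H (M.s ℓ) b ⟨hb⟩ fun j hj => ?_).le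
    let Φ : m.V.T ⥤ M.D ℓ := m.fib ⋙ M.R ℓ ⋙ (M.s ℓ).truncGELE j j
    haveI : Φ.Additive := inferInstance
    have h3 : Φ.map e = 𝟙 _ := (hen j).1 (by omega)
    have h4 : Φ.map (𝟙 X₂) = 0 := by
      have h5 : 𝟙 X₂ = i₂ ≫ (𝟙 X - e) ≫ p₂ := by
        rw [← h₂', Category.assoc, h₂, Category.comp_id, h₂]
      rw [h5, Functor.map_comp, Functor.map_comp, Functor.map_sub, h3,
        CategoryTheory.Functor.map_id, sub_self, zero_comp, comp_zero]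
    rw [CategoryTheory.Functor.map_id] at h4
    exact (IsZero.iff_id_eq_zero _).2 h4

end Model

end Pool.Agent.KS6_13.PF
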