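import Pool.Agent.KS6_13.PF.Field
import Pool.Agent.KS6_13.PF.Ins

/-!
# Lifting classes which come from a Chow motive
-/

set_option linter.unusedSectionVars false
set_option linter.style.haveILetI false

open CategoryTheory Limits MonoidalCategory Triangulated Pretriangulated ZeroObject

universe u v₁ v₂ u₁ u₂ w

namespace Pool.Agent.KS6_13.PF

open Pool.Agent.TH133.TT (IsNondegenerate IsTensorCompatible IsTExact)
open Pool.Agent.W492.TS Pool.Agent.W492.PC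
open Functor.LaxMonoidal Functor.OplaxMonoidal

variable {Λ : Type w} {M : Motives.{v₁, v₂, u₁, u₂} Λ} {𝒞 : ObjectProperty M.T}

theorem Good.kunneth [Nonempty Λ] {t : TStructure M.T} (ht : Good M t) (hM : IsGeometric M 𝒞) :
    Kunneth M.R M.s 𝒞 :=
  kunneth_of_motivic (chow_of_setup hM.setup) (lefschetzSystem hM.lefschetz) hM.setup.bounded
    hM.setup.tensorExact ht.motivic (Classical.arbitrary Λ) (ht.zero _)

theorem Good.ratEqNum [Nonempty Λ] {t : TStructure M.T} (ht : Good M t) (hM : IsGeometric M 𝒞) :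
    RatEqNum M.R M.s 𝒞 := by
  have ℓ : Λ := Classical.arbitrary Λ
  have h0 : 𝟙 (𝟙_ M.T) ≠ 0 :=
    (idem_of_scalar M.R ℚ hM.setup.scalar ℓ (hM.setup.unit_ne ℓ)).1
  exact Motivic.ratEqNum ℚ (chow_of_setup hM.setup) ht.motivic ℓ (ht.zero ℓ)
    (hM.setup.unit_simple ℓ) hM.setup.oddFinite h0

theorem hom_unit_zero (hM : IsGeometric M 𝒞) (ℓ : Λ) {A : M.T} {d : ℤ}
    (hA : RDeg M.R M.s d A) (hd : d ≠ 0) (z : 𝟙_ (M.D ℓ) ⟶ (M.R ℓ).obj A) : z = 0 := by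
  apply hM.semisimple
  intro n
  by_cases hn : n = 0
  · subst hn
    rcases lt_or_gt_of_ne hd with h | h
    · exact (isZero_H_of_le (M.s ℓ) h ⟨hA.1 ℓ⟩).eq_of_tgt _ _
    · exact (isZero_H_of_ge (M.s ℓ) h ⟨hA.2 ℓ⟩).eq_of_tgt _ _
  · rcases lt_or_gt_of_ne hn with h | h
    · exact (isZero_H_of_ge (M.s ℓ) h ⟨(hM.setup.unit_simple ℓ).2.1⟩).eq_of_src _ _
    · exact (isZero_H_of_le (M.s ℓ) h ⟨(hM.setup.unit_simple ℓ).1⟩).eq_of_src _ _

theorem exists_zeroPart (hM : IsGeometric M 𝒞) (hK : Kunneth M.R M.s 𝒞) {X : M.T} (hX : 𝒞 X) :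
    ∃ (X₀ : M.T) (i : X₀ ⟶ X) (p : X ⟶ X₀), PureAt M.R M.s 𝒞 0 X₀ ∧ i ≫ p = 𝟙 X₀ ∧
      ∀ (ℓ : Λ) (z : 𝟙_ (M.D ℓ) ⟶ (M.R ℓ).obj X), z ≫ (M.R ℓ).map (p ≫ i) = z := by
  obtain ⟨n, hn⟩ := hK X hX
  clear hX
  induction n generalizing X with
  | zero =>
    have h0 : IsZero X := hn
    refine ⟨0, 0, 0, ⟨?_, ?_, ?_⟩, (isZero_zero _).eq_of_src _ _, fun ℓ z => ?_⟩
    · exact hM.setup.retract_mem _ _ hM.setup.one_mem ⟨⟨0, 0, (isZero_zero _).eq_of_src _ _⟩⟩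
    · exact fun ℓ => ((M.s ℓ).isLE_of_isZero ((M.R ℓ).map_isZero (isZero_zero _)) 0).le
    · exact fun ℓ => ((M.s ℓ).isGE_of_isZero ((M.R ℓ).map_isZero (isZero_zero _)) 0).ge
    · exact ((M.R ℓ).map_isZero h0).eq_of_tgt _ _
  | succ n ih =>
    obtain ⟨A, B, ⟨d, hA⟩, hB, ⟨e⟩⟩ := hn
    obtain ⟨B₀, i, p, hB₀, hip, hz⟩ := ih hB
    by_cases hd : d = 0
    · subst hd
      refine ⟨A ⊞ B₀, biprod.map (𝟙 A) i ≫ e.inv, e.hom ≫ biprod.map (𝟙 A) p, ?_, ?_, ?_⟩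
      · exact ⟨hM.setup.sum_mem _ _ hA.1 hB₀.1,
          RLE.obj₂ (binaryBiproductTriangle_distinguished A B₀) hA.2.1 hB₀.2.1,
          RGE.obj₂ (binaryBiproductTriangle_distinguished A B₀) hA.2.2 hB₀.2.2⟩
      · simp only [Category.assoc, Iso.inv_hom_id_assoc]
        ext <;> simp [hip]
      · intro ℓ z
        have h1 : (e.hom ≫ biprod.map (𝟙 A) p) ≫ biprod.map (𝟙 A) i ≫ e.inv =
            e.hom ≫ (biprod.fst ≫ biprod.inl + biprod.snd ≫ (p ≫ i) ≫ biprod.inr) ≫ e.inv := by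
          simp only [Category.assoc]
          congr 1
          rw [← Category.assoc, ← Category.assoc]
          congr 1
          ext <;> simp
        have h2 : z ≫ (M.R ℓ).map (e.hom ≫ biprod.snd ≫ (p ≫ i)) =
            z ≫ (M.R ℓ).map (e.hom ≫ biprod.snd) := by
          rw [← Category.assoc e.hom, Functor.map_comp, ← Category.assoc, hz]
        have h3 : z ≫ (M.R ℓ).map ((e.hom ≫ biprod.map (𝟙 A) p) ≫ biprod.map (𝟙 A) i ≫ e.inv) =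
            z ≫ (M.R ℓ).map (e.hom ≫ (biprod.fst ≫ biprod.inl + biprod.snd ≫ biprod.inr) ≫
              e.inv) := by
          rw [h1, Preadditive.add_comp, Preadditive.comp_add, Functor.map_add,
            Preadditive.comp_add, Preadditive.add_comp, Preadditive.comp_add, Functor.map_add,
            Preadditive.comp_add]
          congr 1
          have h4 := congrArg (· ≫ (M.R ℓ).map (biprod.inr ≫ e.inv)) h2
          simp only [Category.assoc, ← Functor.map_comp] at h4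
          simpa only [Category.assoc] using h4
        rw [h3, biprod.total, Category.id_comp, Iso.hom_inv_id, CategoryTheory.Functor.map_id,
          Category.comp_id]
    · refine ⟨B₀, i ≫ biprod.inr ≫ e.inv, e.hom ≫ biprod.snd ≫ p, hB₀, by simp [hip], ?_⟩
      intro ℓ z
      have h0 : z ≫ (M.R ℓ).map (e.hom ≫ biprod.fst) = 0 := hom_unit_zero hM ℓ hA.2 hd _
      have h1 : z ≫ (M.R ℓ).map (e.hom ≫ biprod.snd ≫ (p ≫ i)) =
          z ≫ (M.R ℓ).map (e.hom ≫ biprod.snd) := by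
        rw [← Category.assoc e.hom, Functor.map_comp, ← Category.assoc, hz]
      have h2 : z ≫ (M.R ℓ).map ((e.hom ≫ biprod.snd ≫ p) ≫ i ≫ biprod.inr ≫ e.inv) =
          z ≫ (M.R ℓ).map (e.hom ≫ biprod.snd ≫ biprod.inr ≫ e.inv) := by
        have h4 := congrArg (· ≫ (M.R ℓ).map (biprod.inr ≫ e.inv)) h1
        simp only [Category.assoc, ← Functor.map_comp] at h4
        simpa only [Category.assoc] using h4
      have h3 : z ≫ (M.R ℓ).map (e.hom ≫ biprod.fst ≫ biprod.inl ≫ e.inv) = 0 := by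
        have h4 := congrArg (· ≫ (M.R ℓ).map (biprod.inl ≫ e.inv)) h0
        simp only [Category.assoc, ← Functor.map_comp, zero_comp] at h4
        simpa only [Category.assoc] using h4
      have h5 : z ≫ (M.R ℓ).map (e.hom ≫ (biprod.fst ≫ biprod.inl + biprod.snd ≫ biprod.inr) ≫
              e.inv) = z := by
        rw [biprod.total, Category.id_comp, Iso.hom_inv_id, CategoryTheory.Functor.map_id,
          Category.comp_id]
      rw [h2]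
      rw [Preadditive.add_comp, Preadditive.comp_add, Functor.map_add, Preadditive.comp_add,
        Category.assoc, Category.assoc, h3, zero_add] at h5
      exact h5

theorem map_whisker_eq (ℓ : Λ) {X Q Q' : M.T} {v v' : Q ⟶ Q'}
    (h : (M.R ℓ).map v = (M.R ℓ).map v') : (M.R ℓ).map (X ◁ v) = (M.R ℓ).map (X ◁ v') := by
  rw [Functor.Monoidal.map_whiskerLeft, Functor.Monoidal.map_whiskerLeft, h]

/-- **Lifting**: an endomorphism whose realisation comes from a class of a Chow motive `Q` may be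
replaced by one which comes from a morphism `1 ⟶ Q`. -/
theorem exists_lift [Nonempty Λ] {t : TStructure M.T} (ht : Good M t) (hM : IsGeometric M 𝒞)
    (ℓ : Λ) {A Q : M.T} (hA : 𝒞 A) (hQ : 𝒞 Q) (w : A ⊗ Q ⟶ A) (e : A ⟶ A)
    (y : 𝟙_ (M.D ℓ) ⟶ (M.R ℓ).obj Q) (hy : act (M.R ℓ) y w = (M.R ℓ).map e) :
    ∃ y' : 𝟙_ M.T ⟶ Q, (M.R ℓ).map (ins y' w) = (M.R ℓ).map e := by
  letI : ExactPairing Aᘁ A := BraidedCategory.exactPairing_swap A Aᘁ
  have hK := ht.kunneth hM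
  have hP : 𝒞 (Aᘁ ⊗ A) := hM.setup.tensor_mem _ _ (hM.setup.dual_mem _ hA) hA
  obtain ⟨Q₀, iQ, pQ, hQ₀, hipQ, hzQ⟩ := exists_zeroPart hM hK hQ
  obtain ⟨P₀, iP, pP, hP₀, hipP, hzP⟩ := exists_zeroPart hM hK hP
  let ρ : Q ⟶ Aᘁ ⊗ A := sharp w
  let c : 𝟙_ M.T ⟶ Aᘁ ⊗ A := sharp ((ρ_ A).hom ≫ e)
  -- the realisation of `c` comes from `y`
  have hc : ε (M.R ℓ) ≫ (M.R ℓ).map c = y ≫ (M.R ℓ).map ρ := by
    rw [map_sharp, map_sharp]
    congr 3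
    have h1 : ins y (μ (M.R ℓ) A Q ≫ (M.R ℓ).map w) = act (M.R ℓ) y w := rfl
    rw [h1, hy]
    have h2 := map_ins (M.R ℓ) (𝟙 (𝟙_ M.T)) ((ρ_ A).hom ≫ e)
    rw [CategoryTheory.Functor.map_id, Category.comp_id] at h2
    rw [← h2]
    congr 1
    simp [ins]
  obtain ⟨h, hh⟩ := exists_quasi_inverse_pure (chow_of_setup hM.setup) ℚ hM.setup.scalar
    hM.setup.tensorExact (ht.ratEqNum hM) hQ₀ hP₀ (iQ ≫ ρ ≫ pP)
  have h1 : ε (M.R ℓ) ≫ (M.R ℓ).map (c ≫ pP) = y ≫ (M.R ℓ).map (pQ ≫ iQ ≫ ρ ≫ pP) := by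
    rw [Functor.map_comp, ← Category.assoc, hc, ← Category.assoc pQ iQ, Functor.map_comp,
      ← Category.assoc y ((M.R ℓ).map (pQ ≫ iQ)), hzQ, Category.assoc, Functor.map_comp]
  have h2 : ε (M.R ℓ) ≫ (M.R ℓ).map ((c ≫ pP ≫ h ≫ iQ) ≫ ρ) = ε (M.R ℓ) ≫ (M.R ℓ).map c := by
    have h3 : ε (M.R ℓ) ≫ (M.R ℓ).map (((c ≫ pP ≫ h ≫ iQ) ≫ ρ) ≫ pP) =
        ε (M.R ℓ) ≫ (M.R ℓ).map (c ≫ pP) := by
      have h4 : ((c ≫ pP ≫ h ≫ iQ) ≫ ρ) ≫ pP = (c ≫ pP) ≫ h ≫ (iQ ≫ ρ ≫ pP) := by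
        simp only [Category.assoc]
      rw [h4, Functor.map_comp, ← Category.assoc, h1, Category.assoc, ← Functor.map_comp]
      congr 2
      simp only [Category.assoc]
      have h5 := congrArg (fun z => pQ ≫ z) hh
      simpa only [Category.assoc] using h5
    have key : ∀ z z' : 𝟙_ (M.D ℓ) ⟶ (M.R ℓ).obj (Aᘁ ⊗ A),
        z ≫ (M.R ℓ).map pP = z' ≫ (M.R ℓ).map pP → z = z' := by
      intro z z' hz
      rw [← hzP ℓ z, ← hzP ℓ z', Functor.map_comp, ← Category.assoc, ← Category.assoc, hz]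
    apply key
    refine (Category.assoc _ _ _).trans (Eq.trans ?_ (Category.assoc _ _ _).symm)
    rw [← (M.R ℓ).map_comp _ pP, ← (M.R ℓ).map_comp _ pP]
    exact h3
  have h3 : (M.R ℓ).map ((c ≫ pP ≫ h ≫ iQ) ≫ ρ) = (M.R ℓ).map c :=
    (cancel_epi (ε (M.R ℓ))).1 h2
  refine ⟨c ≫ pP ≫ h ≫ iQ, ?_⟩
  have h8 : ∀ f : A ⊗ 𝟙_ M.T ⟶ A, f = (A ◁ (sharp f : 𝟙_ M.T ⟶ Aᘁ ⊗ A)) ≫
      (α_ A Aᘁ A).inv ≫ (ε_ Aᘁ A ▷ A) ≫ (λ_ A).hom := fun f =>
    ((tensorLeftHomEquiv (𝟙_ M.T) Aᘁ A A).symm_apply_apply f).symm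
  have h10 : (M.R ℓ).map (A ◁ (sharp (A ◁ (c ≫ pP ≫ h ≫ iQ) ≫ w) : 𝟙_ M.T ⟶ Aᘁ ⊗ A)) =
      (M.R ℓ).map (A ◁ (sharp ((ρ_ A).hom ≫ e) : 𝟙_ M.T ⟶ Aᘁ ⊗ A)) :=
    map_whisker_eq ℓ (by rw [← comp_sharp]; exact h3)
  have h9 : (M.R ℓ).map (A ◁ (c ≫ pP ≫ h ≫ iQ) ≫ w) = (M.R ℓ).map ((ρ_ A).hom ≫ e) :=
    (congrArg (M.R ℓ).map (h8 _)).trans (((M.R ℓ).map_comp _ _).trans
      ((congrArg (· ≫ _) h10).trans (((M.R ℓ).map_comp _ _).symm.trans
        (congrArg (M.R ℓ).map (h8 _)).symm)))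
  unfold ins
  rw [Functor.map_comp, h9, ← Functor.map_comp, Iso.inv_hom_id_assoc]

end Pool.Agent.KS6_13.PF
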