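import Pool.Agent.KS6_13.PF.Step
import Pool.Graph.R_pool_sql_team_seeded_ab47071d.TH133.TT.Descent

/-!
# Only the characteristic matters
-/

set_option linter.style.haveILetI false

open CategoryTheory Algebra

universe u v₁ v₂ u₁ u₂ w

namespace Pool.Agent.KS6_13.PF

open Pool.Agent.TH133.TT

/-- The prime field of `k` embeds into the algebraically closed fields of the same
characteristic. -/
theorem exists_embedding_bot (p : ℕ) (k L : Type u) [Field k] [CharP k p] [Field L] [CharP L p]
    [IsAlgClosed L] : Nonempty ((⊥ : Subfield k) →+* L) := by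
  letI : Algebra (ZMod p) (⊥ : Subfield k) := ZMod.algebra _ p
  letI : Algebra (ZMod p) L := ZMod.algebra _ p
  haveI := faithful_zmod p (⊥ : Subfield k)
  haveI := faithful_zmod p L
  have htop : Subfield.closure (∅ : Set (⊥ : Subfield k)) = ⊤ := by
    rw [Subfield.closure_empty]
    have h : (⊤ : Subfield (⊥ : Subfield k)).map (⊥ : Subfield k).subtype ≤ ⊥ := by
      intro x hx
      obtain ⟨y, -, rfl⟩ := Subfield.mem_map.1 hx
      exact y.2
    rw [_root_.eq_top_iff]
    intro x _
    have h1 : (x : k) ∈ (⊥ : Subfield (⊥ : Subfield k)).map (⊥ : Subfield k).subtype :=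
      (bot_le : (⊥ : Subfield k) ≤ _) x.2
    obtain ⟨y, hy, hyx⟩ := Subfield.mem_map.1 h1
    have : y = x := Subtype.ext hyx
    exact this ▸ hy
  refine exists_embedding (R := ZMod p) ∅ Set.finite_empty htop ?_
  haveI := isAlgebraic_of_closure (R := ZMod p) ∅ htop
  refine (Algebra.IsAlgebraic.trdeg_le_cardinalMk (ZMod p)
    (∅ : Set (⊥ : Subfield k))).trans ?_
  rw [Cardinal.mk_eq_zero]
  exact zero_le

theorem exists_closure_hom {F L : Type u} [Field F] [Field L] [IsAlgClosed L] (φ : F →+* L) :
    Nonempty (AlgebraicClosure F →+* L) := by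
  letI := φ.toAlgebra
  exact ⟨(IsAlgClosed.lift (R := F) (S := AlgebraicClosure F) (M := L)).toRingHom⟩

variable {p : ℕ} {Λ : Type w} [Nonempty Λ] (S : System.{u, v₁, v₂, u₁, u₂} p Λ)
include S

theorem System.of_hom {k K : Type u} [Field k] [CharP k p] [Field K] [CharP K p] (φ : k →+* K)
    (h : (S.obj K).toRealised.HasMotivicTStructure) :
    (S.obj k).toRealised.HasMotivicTStructure :=
  hasMotivicTStructure_of_faithful (S.map φ) (S.faithful φ) (S.specialises φ) h

/-- **Only the characteristic matters.** -/
theorem System.hasMotivicTStructure (k K : Type u) [Field k] [CharP k p] [Field K] [CharP K p]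
    (h : (S.obj k).toRealised.HasMotivicTStructure) :
    (S.obj K).toRealised.HasMotivicTStructure := by
  let k' := AlgebraicClosure k
  haveI : CharP k' p := charP_of_injective_algebraMap (algebraMap k k').injective p
  let K' := AlgebraicClosure K
  haveI : CharP K' p := charP_of_injective_algebraMap (algebraMap K K').injective p
  let F := AlgebraicClosure (⊥ : Subfield k)
  haveI : CharP (⊥ : Subfield k) p := inferInstance
  haveI : CharP F p :=
    charP_of_injective_algebraMap (algebraMap (⊥ : Subfield k) F).injective p
  have h1 : (S.obj k').toRealised.HasMotivicTStructure :=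
    hasMotivicTStructure_of_descends (fun _ : Unit => S.map (algebraMap k k')) S.algebraic
      fun _ => h
  have h2 : (S.obj F).toRealised.HasMotivicTStructure := by
    obtain ⟨ψ⟩ := exists_closure_hom ((algebraMap k k').comp (⊥ : Subfield k).subtype)
    exact S.of_hom ψ h1
  have h3 : (S.obj K').toRealised.HasMotivicTStructure := by
    obtain ⟨φ⟩ := exists_embedding_bot p k K'
    obtain ⟨ψ⟩ := exists_closure_hom φ
    exact hasMotivicTStructure_of_spreadsOut (S.isGeometric F) (S.isGeometric K')
      (S.spreadsOut ψ) h2
  exact S.of_hom (algebraMap K K') h3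

end Pool.Agent.KS6_13.PF
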