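import Pool.Agent.KS6_13.PF.Ins

open CategoryTheory MonoidalCategory

universe v₁ v₂ u₁ u₂

namespace Pool.Agent.KS6_13.PF

open Functor.LaxMonoidal Functor.OplaxMonoidal

variable {C : Type u₁} [Category.{v₁} C] [MonoidalCategory C]
  {E : Type u₂} [Category.{v₂} E] [MonoidalCategory E]

/-- a monoidal functor maps exact pairings to exact pairings -/
@[reducible]
def mapExactPairing (F : C ⥤ E) [F.Monoidal] (X Y : C) [ExactPairing X Y] :
    ExactPairing (F.obj X) (F.obj Y) where
  coevaluation' := ε F ≫ F.map (η_ X Y) ≫ δ F X Y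
  evaluation' := μ F Y X ≫ F.map (ε_ X Y) ≫ Functor.OplaxMonoidal.η F
  coevaluation_evaluation' := by
    have h := congrArg F.map (ExactPairing.coevaluation_evaluation X Y)
    simp only [Functor.map_comp, Functor.Monoidal.map_whiskerLeft,
      Functor.Monoidal.map_whiskerRight, Functor.Monoidal.map_associator_inv,
      Functor.Monoidal.map_rightUnitor, Functor.Monoidal.map_leftUnitor_inv, Category.assoc,
      Functor.Monoidal.μ_δ_assoc] at h
    have h2 := congrArg (fun z => (F.obj Y ◁ ε F) ≫ μ F Y (𝟙_ C) ≫ z ≫ δ F (𝟙_ C) Y ≫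
      (Functor.OplaxMonoidal.η F ▷ F.obj Y)) h
    simp only [Category.assoc, Functor.Monoidal.μ_δ_assoc] at h2
    simp only [MonoidalCategory.whiskerLeft_comp, comp_whiskerRight, Category.assoc]
    rw [h2, ← MonoidalCategory.whiskerLeft_comp_assoc, Functor.Monoidal.ε_η,
      MonoidalCategory.whiskerLeft_id, Category.id_comp, ← comp_whiskerRight,
      Functor.Monoidal.ε_η, id_whiskerRight, Category.comp_id]
  evaluation_coevaluation' := by
    have h := congrArg F.map (ExactPairing.evaluation_coevaluation X Y)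
    simp only [Functor.map_comp, Functor.Monoidal.map_whiskerLeft,
      Functor.Monoidal.map_whiskerRight, Functor.Monoidal.map_associator,
      Functor.Monoidal.map_leftUnitor, Functor.Monoidal.map_rightUnitor_inv, Category.assoc,
      Functor.Monoidal.μ_δ_assoc] at h
    have h2 := congrArg (fun z => (ε F ▷ F.obj X) ≫ μ F (𝟙_ C) X ≫ z ≫ δ F X (𝟙_ C) ≫
      (F.obj X ◁ Functor.OplaxMonoidal.η F)) h
    simp only [Category.assoc, Functor.Monoidal.μ_δ_assoc] at h2
    simp only [MonoidalCategory.whiskerLeft_comp, comp_whiskerRight, Category.assoc]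
    rw [h2, ← comp_whiskerRight_assoc, Functor.Monoidal.ε_η,
      id_whiskerRight, Category.id_comp, ← MonoidalCategory.whiskerLeft_comp,
      Functor.Monoidal.ε_η, MonoidalCategory.whiskerLeft_id, Category.comp_id]

end Pool.Agent.KS6_13.PF
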