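import Pool.Agent.KS6_13.PF.Lift
import Pool.Agent.KS6_13.PF.Pairing
import Pool.Graph.R_pool_sql_team_seeded_f72693b1.W492.PC.Nil

/-!
# Motives over a model
-/

set_option linter.unusedSectionVars false
set_option linter.style.haveILetI false

open CategoryTheory Limits MonoidalCategory Triangulated Pretriangulated ZeroObject

universe u v₁ v₂ u₁ u₂ w

namespace Pool.Agent.KS6_13.PF

open Pool.Agent.TH133.TT (IsNondegenerate IsTensorCompatible IsTExact)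
open Pool.Agent.W492.TS Pool.Agent.W492.PC
open Functor.LaxMonoidal Functor.OplaxMonoidal

variable {Λ : Type w} {M M' : Motives.{v₁, v₂, u₁, u₂} Λ} {𝒞 : ObjectProperty M.T}

namespace Model

variable (m : Model M M') {t : TStructure M.T} (ht : Good M t)

/-- `X` is the dual of `Xᘁ` -/
@[reducible]
def pairing (N : Motives.{v₁, v₂, u₁, u₂} Λ) (X : N.T) : ExactPairing Xᘁ X :=
  BraidedCategory.exactPairing_swap X Xᘁ

omit ht in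
theorem fib_le (ℓ : Λ) (n : ℤ) (X : m.V.T) : M.Le ℓ n (m.fib.obj X) ↔ m.V.Le ℓ n X :=
  (m.fib_deg ℓ n X).1

omit ht in
theorem fib_ge (ℓ : Λ) (n : ℤ) (X : m.V.T) : M.Ge ℓ n (m.fib.obj X) ↔ m.V.Ge ℓ n X :=
  (m.fib_deg ℓ n X).2

omit ht in
theorem gen_le (ℓ : Λ) (n : ℤ) (X : m.V.T) : M'.Le ℓ n (m.gen.obj X) ↔ m.V.Le ℓ n X :=
  (m.gen_deg ℓ n X).1

omit ht in
theorem gen_ge (ℓ : Λ) (n : ℤ) (X : m.V.T) : M'.Ge ℓ n (m.gen.obj X) ↔ m.V.Ge ℓ n X :=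
  (m.gen_deg ℓ n X).2

include ht

theorem le_iff (ℓ : Λ) (n : ℤ) (X : m.V.T) :
    t.le n (m.fib.obj X) ↔ (m.V.s ℓ).le n ((m.V.R ℓ).obj X) :=
  (ht.le_iff ℓ n _).trans (m.fib_le ℓ n X)

theorem ge_iff (ℓ : Λ) (n : ℤ) (X : m.V.T) :
    t.ge n (m.fib.obj X) ↔ (m.V.s ℓ).ge n ((m.V.R ℓ).obj X) :=
  (ht.ge_iff ℓ n _).trans (m.fib_ge ℓ n X)

theorem push_ge_of [Nonempty Λ] {n : ℤ} {X : m.V.T} (hX : t.ge n (m.fib.obj X)) :
    t.ge n (m.push.obj X) := by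
  have ℓ : Λ := Classical.arbitrary Λ
  exact (ht.ge_iff ℓ n _).2 (m.push_ge ℓ n X ((m.ge_iff ht ℓ n X).1 hX))

theorem ge_hom {X Y : m.V.T} {a c : ℤ} (hX : t.le a (m.fib.obj X)) (hY : t.ge c (m.fib.obj Y)) :
    t.ge (c - a) (m.fib.obj (Xᘁ ⊗ Y)) := by
  letI := pairing m.V X
  letI : ExactPairing (m.fib.obj Xᘁ) (m.fib.obj X) := mapExactPairing m.fib Xᘁ X
  have h1 : t.ge (-a) (m.fib.obj Xᘁ) := ht.ge_dual hX
  have h2 : t.ge (-a + c) (m.fib.obj Xᘁ ⊗ m.fib.obj Y) := ht.tensor.ge _ _ _ _ h1 hY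
  rw [show c - a = -a + c by ring]
  exact (t.ge _).prop_of_iso (Functor.Monoidal.μIso m.fib Xᘁ Y) h2

/-- **Orthogonality** over a model. -/
theorem hom_zero [Nonempty Λ] {X Y : m.V.T} {B : M.T} {a b c : ℤ} (h : a + b < c)
    (hX : t.le a (m.fib.obj X)) (hB : t.le b B) (hY : t.ge c (m.fib.obj Y))
    (f : X ⊗ m.pull.obj B ⟶ Y) : f = 0 := by
  letI := pairing m.V X
  have key : ∀ f : X ⊗ m.pull.obj B ⟶ Y,
      (m.adj.homEquiv B (Xᘁ ⊗ Y)) (sharp f) = 0 := fun f =>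
    ht.hom_zero (by omega) hB (m.push_ge_of ht (m.ge_hom ht hX hY)) _
  apply sharp_injective (Y := Xᘁ)
  apply (m.adj.homEquiv B (Xᘁ ⊗ Y)).injective
  rw [key f, key 0]

theorem hom_zero' [Nonempty Λ] {X Y : m.V.T} {a c : ℤ} (h : a < c)
    (hX : t.le a (m.fib.obj X)) (hY : t.ge c (m.fib.obj Y)) (f : X ⟶ Y) : f = 0 := by
  have h1 := m.hom_zero ht (B := 𝟙_ M.T) (b := 0) (by omega) hX ht.unit_le hY
    ((X ◁ η m.pull) ≫ (ρ_ X).hom ≫ f)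
  have h2 : f = (ρ_ X).inv ≫ (X ◁ ε m.pull) ≫ (X ◁ η m.pull) ≫ (ρ_ X).hom ≫ f := by
    rw [← MonoidalCategory.whiskerLeft_comp_assoc, Functor.Monoidal.ε_η]
    simp
  rw [h2, h1]
  simp

/-- the morphism `1 ⟶ push (Xᘁ ⊗ Y)` which corresponds to `f : X ⟶ Y`. -/
noncomputable def flat (m : Model M M') {X Y : m.V.T} (f : X ⟶ Y) :
    𝟙_ M.T ⟶ m.push.obj (Xᘁ ⊗ Y) :=
  letI := pairing m.V X
  m.adj.homEquiv (𝟙_ M.T) (Xᘁ ⊗ Y) (η m.pull ≫ sharp ((ρ_ X).hom ≫ f))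

omit ht in
theorem flat_injective {X Y : m.V.T} {f g : X ⟶ Y} (h : m.flat f = m.flat g) : f = g := by
  letI := pairing m.V X
  have h1 := (m.adj.homEquiv (𝟙_ M.T) (Xᘁ ⊗ Y)).injective h
  have h2 := congrArg (fun z => ε m.pull ≫ z) h1
  simp only [Functor.Monoidal.ε_η_assoc] at h2
  have h3 := sharp_injective h2
  exact (cancel_epi (ρ_ X).hom).1 h3

omit ht in
theorem map_sharp_zero {ℓ : Λ} {X Y Q : m.V.T} (w : X ⊗ Q ⟶ Y) (hw : (m.V.R ℓ).map w = 0) :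
    (m.V.R ℓ).map (letI := pairing m.V X; (sharp w : Q ⟶ Xᘁ ⊗ Y)) = 0 := by
  letI := pairing m.V X
  have h0 : (m.V.R ℓ).map (Xᘁ ◁ w) = 0 := by
    rw [Functor.Monoidal.map_whiskerLeft, hw]
    have h1 : (m.V.R ℓ).obj Xᘁ ◁ (0 : (m.V.R ℓ).obj (X ⊗ Q) ⟶ (m.V.R ℓ).obj Y) = 0 :=
      MonoidalPreadditive.whiskerLeft_zero
    rw [h1, zero_comp, comp_zero]
  unfold sharp tensorLeftHomEquiv
  simp only [Equiv.coe_fn_mk, Functor.map_comp]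
  rw [h0, comp_zero, comp_zero, comp_zero]

omit ht in
theorem map_flat_zero {ℓ : Λ} {X Y : m.V.T} (f : X ⟶ Y) (hf : (m.V.R ℓ).map f = 0) :
    (M.R ℓ).map (m.flat f) = 0 := by
  letI := pairing m.V X
  unfold flat
  rw [Adjunction.homEquiv_unit, Functor.map_comp]
  have h1 : (m.V.R ℓ).map (sharp ((ρ_ X).hom ≫ f) : 𝟙_ m.V.T ⟶ Xᘁ ⊗ Y) = 0 :=
    m.map_sharp_zero _ (by rw [Functor.map_comp, hf, comp_zero])
  have h2 : (m.V.R ℓ).map (η m.pull ≫ (sharp ((ρ_ X).hom ≫ f) : 𝟙_ m.V.T ⟶ Xᘁ ⊗ Y)) = 0 := by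
    rw [Functor.map_comp, h1, comp_zero]
  rw [m.push_zero ℓ _ _ _ h2, comp_zero]

/-- **Faithfulness** over a model. -/
theorem faithful [Nonempty Λ] (ℓ : Λ) {X Y : m.V.T} (hX : t.le 0 (m.fib.obj X))
    (hY : t.ge 0 (m.fib.obj Y)) (f : X ⟶ Y) (hf : (m.V.R ℓ).map f = 0) : f = 0 := by
  have h0 : ∀ g : X ⟶ Y, (m.V.R ℓ).map g = 0 → m.flat g = 0 := fun g hg => by
    refine ht.faithful ℓ _ ht.unit_le ?_ (m.map_flat_zero g hg)
    have h1 := m.push_ge_of ht (m.ge_hom ht hX hY)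
    simpa using h1
  exact m.flat_injective ((h0 f hf).trans (h0 0 (Functor.map_zero _ _ _)).symm)

end Model

end Pool.Agent.KS6_13.PF
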