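import Pool.Agent.KS6_13.PF.Model

/-!
# Nilpotence over a model
-/

set_option linter.unusedSectionVars false
set_option linter.style.haveILetI false

open CategoryTheory Limits MonoidalCategory Triangulated Pretriangulated ZeroObject

universe u v₁ v₂ u₁ u₂ w

namespace Pool.Agent.KS6_13.PF

open Pool.Agent.TH133.TT (IsNondegenerate IsTensorCompatible IsTExact)
open Pool.Agent.W492.TS Pool.Agent.W492.PC
open Functor.LaxMonoidal Functor.OplaxMonoidal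

section
variable {C : Type u₁} [Category.{v₁} C] [MonoidalCategory C]

theorem ins_ins {X Y W Z Z' : C} (z : 𝟙_ C ⟶ Z) (b : X ⊗ Z ⟶ Y) (z' : 𝟙_ C ⟶ Z')
    (h : Y ⊗ Z' ⟶ W) :
    ins z b ≫ ins z' h = ins (z ≫ (ρ_ Z).inv ≫ (Z ◁ z')) ((α_ X Z Z').inv ≫ (b ▷ Z') ≫ h) := by
  unfold ins
  simp only [Category.assoc, MonoidalCategory.whiskerLeft_comp]
  rw [rightUnitor_inv_naturality_assoc b, ← whisker_exchange_assoc b z']
  simp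

end

variable {Λ : Type w} {M M' : Motives.{v₁, v₂, u₁, u₂} Λ} {𝒞 : ObjectProperty M.T}

namespace Model

variable (m : Model M M') {t : TStructure M.T} (ht : Good M t)

include ht

theorem exists_factor [Nonempty Λ] (ℓ : Λ) {X : m.V.T} (f : X ⟶ X)
    (hf : (m.V.R ℓ).map f = 0) : ∃ (B : M.T) (z : 𝟙_ m.V.T ⟶ m.pull.obj B)
      (b : X ⊗ m.pull.obj B ⟶ X), t.le (-1) B ∧ f = ins z b := by
  letI := pairing m.V X
  have hT : Triangle.mk ((t.truncLTι 0).app (m.push.obj (Xᘁ ⊗ X)))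
    ((t.truncGEπ 0).app (m.push.obj (Xᘁ ⊗ X))) ((t.truncGEδLT 0).app (m.push.obj (Xᘁ ⊗ X))) ∈
      distTriang M.T := t.triangleLTGE_distinguished 0 _
  have h0 : m.flat f ≫ (t.truncGEπ 0).app (m.push.obj (Xᘁ ⊗ X)) = 0 := by
    refine ht.faithful ℓ _ ht.unit_le ?_ ?_
    · exact (inferInstance : t.IsGE ((t.truncGE 0).obj (m.push.obj (Xᘁ ⊗ X))) 0).ge
    · rw [Functor.map_comp, m.map_flat_zero f hf, zero_comp]
  obtain ⟨g, hg⟩ : ∃ g : 𝟙_ M.T ⟶ (t.truncLT 0).obj (m.push.obj (Xᘁ ⊗ X)),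
    m.flat f = g ≫ (t.truncLTι 0).app (m.push.obj (Xᘁ ⊗ X)) :=
    Triangle.coyoneda_exact₂ _ hT (m.flat f) h0
  let B := (t.truncLT 0).obj (m.push.obj (Xᘁ ⊗ X))
  let s : m.pull.obj B ⟶ Xᘁ ⊗ X :=
    (m.adj.homEquiv B (Xᘁ ⊗ X)).symm ((t.truncLTι 0).app (m.push.obj (Xᘁ ⊗ X)))
  have h1 : (sharp ((ρ_ X).hom ≫ f) : 𝟙_ m.V.T ⟶ Xᘁ ⊗ X) =
      (ε m.pull ≫ m.pull.map g) ≫ s := by
    have h2 : η m.pull ≫ (sharp ((ρ_ X).hom ≫ f) : 𝟙_ m.V.T ⟶ Xᘁ ⊗ X) =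
        m.pull.map g ≫ s := by
      rw [← m.adj.homEquiv_naturality_left_symm, ← hg]
      exact ((m.adj.homEquiv _ _).symm_apply_apply _).symm
    rw [Category.assoc, ← h2, Functor.Monoidal.ε_η_assoc]
  refine ⟨B, ε m.pull ≫ m.pull.map g, (tensorLeftHomEquiv _ Xᘁ X X).symm s,
    (t.isLE_truncLT_obj (m.push.obj (Xᘁ ⊗ X)) 0 (-1)).le, ?_⟩
  have h3 : s = sharp ((tensorLeftHomEquiv _ Xᘁ X X).symm s) :=
    ((tensorLeftHomEquiv _ Xᘁ X X).apply_symm_apply s).symm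
  rw [h3, comp_sharp] at h1
  have h4 := sharp_injective h1
  unfold ins
  rw [← h4, Iso.inv_hom_id_assoc]

theorem pow_factor {X : m.V.T} {B : M.T} (hB : t.le (-1) B) (z : 𝟙_ m.V.T ⟶ m.pull.obj B)
    (b : X ⊗ m.pull.obj B ⟶ X) (f : End X) (hf : f = ins z b) (j : ℕ) :
    ∃ (C : M.T) (z' : 𝟙_ m.V.T ⟶ m.pull.obj C) (h : X ⊗ m.pull.obj C ⟶ X), t.le (-j) C ∧
      f ^ j = ins z' h := by
  induction j with
  | zero =>
    refine ⟨𝟙_ M.T, ε m.pull, (X ◁ η m.pull) ≫ (ρ_ X).hom, ?_, ?_⟩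
    · simpa using ht.unit_le
    · rw [pow_zero, End.one_def]
      unfold ins
      rw [← MonoidalCategory.whiskerLeft_comp_assoc, Functor.Monoidal.ε_η]
      simp
  | succ j ih =>
    obtain ⟨C, z', h, hC, hj⟩ := ih
    refine ⟨B ⊗ C, (z ≫ (ρ_ (m.pull.obj B)).inv ≫ (m.pull.obj B ◁ z')) ≫ μ m.pull B C,
      (X ◁ δ m.pull B C) ≫ (α_ X (m.pull.obj B) (m.pull.obj C)).inv ≫
        (b ▷ m.pull.obj C) ≫ h, ?_, ?_⟩
    · have := ht.tensor.le _ _ _ _ hB hC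
      rwa [show (-1 + -(j : ℤ)) = -((j + 1 : ℕ) : ℤ) by push_cast; ring] at this
    · rw [pow_succ, End.mul_def, hj]
      change (f : X ⟶ X) ≫ ins z' h = _
      rw [hf, ins_ins, ins_comp (z ≫ (ρ_ (m.pull.obj B)).inv ≫ (m.pull.obj B ◁ z')),
        ← MonoidalCategory.whiskerLeft_comp_assoc,
        Functor.Monoidal.μ_δ, MonoidalCategory.whiskerLeft_id, Category.id_comp]

theorem pow_eq_zero [Nonempty Λ] (ℓ : Λ) {X : m.V.T} {a c : ℤ} (ha : t.le a (m.fib.obj X))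
    (hc : t.ge c (m.fib.obj X)) (f : End X) (hf : (m.V.R ℓ).map (f : X ⟶ X) = 0) :
    IsNilpotent f := by
  obtain ⟨B, z, b, hB, hfb⟩ := m.exists_factor ht ℓ (f : X ⟶ X) hf
  obtain ⟨C, z', h, hC, hj⟩ := m.pow_factor ht hB z b f hfb (a - c + 1).toNat
  refine ⟨(a - c + 1).toNat, ?_⟩
  rw [hj, m.hom_zero ht (by omega) ha hC hc h]
  unfold ins
  simp

/-- **Nilpotence**: an endomorphism which is zero on the realisation of the fibre is nilpotent. -/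
theorem isNilpotent [Nonempty Λ] (ℓ : Λ) {X : m.V.T} (f : End X)
    (hf : (M.R ℓ).map (m.fib.map (f : X ⟶ X)) = 0) : IsNilpotent f := by
  obtain ⟨⟨a, ha⟩, c, hc⟩ := M.bounded ℓ ((M.R ℓ).obj (m.fib.obj X))
  have h1 : (m.V.s ℓ).le a ((m.V.R ℓ).obj X) := (m.fib_le ℓ a X).1 ha
  have h2 : (m.V.s ℓ).ge c ((m.V.R ℓ).obj X) := (m.fib_ge ℓ c X).1 hc
  have h3 : ((m.V.R ℓ).mapEnd X f) ^ ((a - c + 1).toNat) = 0 := by
    refine pow_eq_zero_of_H (m.V.s ℓ) _ c _ (m.fib_faithful ℓ X X f hf) ⟨h2⟩ ?_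
    haveI : (m.V.s ℓ).IsLE ((m.V.R ℓ).obj X) a := ⟨h1⟩
    exact (m.V.s ℓ).isLE_of_le _ a _ (by omega)
  rw [← map_pow] at h3
  have h4 := m.pow_eq_zero ht ℓ ((ht.le_iff ℓ _ _).2 ha) ((ht.ge_iff ℓ _ _).2 hc)
    (f ^ ((a - c + 1).toNat)) h3
  exact h4.of_pow

theorem isZero_of_isZero [Nonempty Λ] (ℓ : Λ) {X : m.V.T}
    (hX : IsZero ((m.V.R ℓ).obj X)) : IsZero X := by
  have h1 : IsZero ((M.R ℓ).obj (m.fib.obj X)) := by
    have h2 : (M.s ℓ).IsLE ((M.R ℓ).obj (m.fib.obj X)) 0 :=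
      ⟨(m.fib_le ℓ 0 X).2 ((m.V.s ℓ).isLE_of_isZero hX 0).le⟩
    have h3 : (M.s ℓ).IsGE ((M.R ℓ).obj (m.fib.obj X)) 1 :=
      ⟨(m.fib_ge ℓ 1 X).2 ((m.V.s ℓ).isGE_of_isZero hX 1).ge⟩
    exact (M.s ℓ).isZero _ 0 1
  obtain ⟨n, hn⟩ := m.isNilpotent ht ℓ (𝟙 X : End X) (h1.eq_of_src _ _)
  rw [IsZero.iff_id_eq_zero]
  have h2 : (1 : End X) ^ n = 0 := hn
  rw [one_pow] at h2
  exact h2

end Model

end Pool.Agent.KS6_13.PF
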