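import Pool.Agent.KS6_13.PF.Kun

/-!
# The motivic t-structure over an extension of algebraically closed fields
-/

set_option linter.unusedSectionVars false
set_option linter.style.haveILetI false

open CategoryTheory Limits MonoidalCategory Triangulated Pretriangulated ZeroObject

universe u v₁ v₂ u₁ u₂ w

namespace Pool.Agent.KS6_13.PF

open Pool.Agent.TH133.TT (IsNondegenerate IsTensorCompatible IsTExact)
open Pool.Agent.W492.TS Pool.Agent.W492.PC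
open Pool.Agent.W492.MT (IsSum)

variable {Λ : Type w} {M M' : Motives.{v₁, v₂, u₁, u₂} Λ} {𝒞 : ObjectProperty M.T}
  {𝒞' : ObjectProperty M'.T}

theorem eq_zero_of_arrow {C : Type*} [Category* C] [HasZeroMorphisms C] {A B A' B' : C}
    {f : A ⟶ B} {g : A' ⟶ B'} (e : Arrow.mk f ≅ Arrow.mk g) (hg : g = 0) : f = 0 := by
  subst hg
  have h4 : e.inv.left ≫ f = (0 : A' ⟶ B') ≫ e.inv.right := e.inv.w
  have h5 : e.hom.left ≫ e.inv.left = 𝟙 A := by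
    rw [← Arrow.comp_left, e.hom_inv_id, Arrow.id_left]
    rfl
  have h6 : f = e.hom.left ≫ e.inv.left ≫ f := by
    rw [reassoc_of% h5]
    exact (Category.id_comp f).symm
  rw [h6, h4, zero_comp, comp_zero]

section
variable [Nonempty Λ] (hS : SpreadsOut M M' 𝒞 𝒞') {t : TStructure M.T} (ht : Good M t)
include hS ht

theorem SpreadsOut.isZero (ℓ : Λ) {A : M'.T} (hA : IsZero ((M'.R ℓ).obj A)) : IsZero A := by
  obtain ⟨m, X, Y, g, ⟨e⟩⟩ := hS.arrow (𝟙 A)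
  have eA : A ≅ m.gen.obj X := Arrow.leftFunc.mapIso e
  have h1 : IsZero ((M'.R ℓ).obj (m.gen.obj X)) := hA.of_iso ((M'.R ℓ).mapIso eA.symm)
  have h2 : IsZero ((m.V.R ℓ).obj X) := by
    have h3 : (m.V.s ℓ).IsLE ((m.V.R ℓ).obj X) 0 :=
      ⟨(m.gen_le ℓ 0 X).1 ((M'.s ℓ).isLE_of_isZero h1 0).le⟩
    have h4 : (m.V.s ℓ).IsGE ((m.V.R ℓ).obj X) 1 :=
      ⟨(m.gen_ge ℓ 1 X).1 ((M'.s ℓ).isGE_of_isZero h1 1).ge⟩
    exact (m.V.s ℓ).isZero _ 0 1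
  exact (m.gen.map_isZero (m.isZero_of_isZero ht ℓ h2)).of_iso eA

theorem SpreadsOut.hom_zero {a b : ℤ} (h : a < b) {A B : M'.T}
    (hA : RLE M'.R M'.s a A) (hB : RGE M'.R M'.s b B) (f : A ⟶ B) : f = 0 := by
  have ℓ : Λ := Classical.arbitrary Λ
  obtain ⟨m, X, Y, g, ⟨e⟩⟩ := hS.arrow f
  have eA : A ≅ m.gen.obj X := Arrow.leftFunc.mapIso e
  have eB : B ≅ m.gen.obj Y := Arrow.rightFunc.mapIso e
  have h1 : t.le a (m.fib.obj X) :=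
    (m.le_iff ht ℓ a X).2 ((m.gen_le ℓ a X).1 (hA.of_iso eA ℓ))
  have h2 : t.ge b (m.fib.obj Y) :=
    (m.ge_iff ht ℓ b Y).2 ((m.gen_ge ℓ b Y).1 (hB.of_iso eB ℓ))
  have h3 : g = 0 := m.hom_zero' ht h h1 h2 g
  exact eq_zero_of_arrow e (by rw [h3, Functor.map_zero])

theorem SpreadsOut.faithful (ℓ : Λ) {A B : M'.T}
    (hA : RLE M'.R M'.s 0 A) (hB : RGE M'.R M'.s 0 B) (f : A ⟶ B)
    (hf : (M'.R ℓ).map f = 0) : f = 0 := by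
  obtain ⟨m, X, Y, g, ⟨e⟩⟩ := hS.arrow f
  have eA : A ≅ m.gen.obj X := Arrow.leftFunc.mapIso e
  have eB : B ≅ m.gen.obj Y := Arrow.rightFunc.mapIso e
  have h1 := (m.gen_le ℓ 0 X).1 (hA.of_iso eA ℓ)
  have h2 := (m.gen_ge ℓ 0 Y).1 (hB.of_iso eB ℓ)
  have h9 : (M'.R ℓ).map (m.gen.map g) = 0 :=
    eq_zero_of_arrow ((M'.R ℓ).mapArrow.mapIso e.symm) hf
  have h3 : g = 0 := m.faithful ht ℓ ((m.le_iff ht ℓ 0 X).2 h1) ((m.ge_iff ht ℓ 0 Y).2 h2) g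
    (m.gen_faithful ℓ X Y g h1 h2 h9)
  exact eq_zero_of_arrow e (by rw [h3, Functor.map_zero])

theorem SpreadsOut.exists_decomp (hM : IsGeometric M 𝒞) (hM' : IsGeometric M' 𝒞') {A : M'.T}
    (hA : 𝒞' A) (n : ℤ) : ∃ A₁ A₂ : M'.T, Nonempty (A ≅ A₁ ⊞ A₂) ∧ 𝒞' A₁ ∧ 𝒞' A₂ ∧
      RGE M'.R M'.s n A₁ ∧ RLE M'.R M'.s (n - 1) A₂ := by
  obtain ⟨m, X, hX, hX', ⟨e⟩⟩ := hS.chow A hA
  obtain ⟨X₁, X₂, ⟨e'⟩, h₁, h₂⟩ := m.exists_decomp ht hM hX hX' n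
  haveI : PreservesBinaryBiproducts m.gen := preservesBinaryBiproducts_of_preservesBiproducts _
  let e₁ : A ≅ m.gen.obj X₁ ⊞ m.gen.obj X₂ := e ≪≫ m.gen.mapIso e' ≪≫ m.gen.mapBiprod X₁ X₂
  refine ⟨m.gen.obj X₁, m.gen.obj X₂, ⟨e₁⟩, ?_, ?_, fun ℓ => ?_, fun ℓ => ?_⟩
  · exact hM'.setup.retract_mem _ _ hA ⟨(⟨biprod.inl, biprod.fst, biprod.inl_fst⟩ :
      Retract _ (_ ⊞ m.gen.obj X₂)).trans (Retract.ofIso e₁.symm)⟩
  · exact hM'.setup.retract_mem _ _ hA ⟨(⟨biprod.inr, biprod.snd, biprod.inr_snd⟩ :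
      Retract _ (m.gen.obj X₁ ⊞ _)).trans (Retract.ofIso e₁.symm)⟩
  · exact (m.gen_ge ℓ n X₁).2 ((m.ge_iff ht ℓ n X₁).1 h₁)
  · exact (m.gen_le ℓ (n - 1) X₂).2 ((m.le_iff ht ℓ (n - 1) X₂).1 h₂)

theorem SpreadsOut.kunneth (hM : IsGeometric M 𝒞) (hM' : IsGeometric M' 𝒞') :
    Kunneth M'.R M'.s 𝒞' := by
  have key : ∀ (N : ℕ) (p : ℤ) (A : M'.T), 𝒞' A → RGE M'.R M'.s p A →
      RLE M'.R M'.s (p + N - 1) A → ∃ n, IsSum (fun Y => ∃ d, PureAt M'.R M'.s 𝒞' d Y) n A := by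
    intro N
    induction N with
    | zero =>
      intro p A hA h1 h2
      have ℓ : Λ := Classical.arbitrary Λ
      refine ⟨0, hS.isZero ht ℓ ?_⟩
      have h3 : (M'.s ℓ).IsLE ((M'.R ℓ).obj A) (p + (0 : ℕ) - 1) := ⟨h2 ℓ⟩
      have h4 : (M'.s ℓ).IsGE ((M'.R ℓ).obj A) p := ⟨h1 ℓ⟩
      exact (M'.s ℓ).isZero _ (p + (0 : ℕ) - 1) p (by push_cast; omega)
    | succ N ih =>
      intro p A hA h1 h2
      obtain ⟨A₁, A₂, ⟨e⟩, hA₁, hA₂, h3, h4⟩ := hS.exists_decomp ht hM hM' hA (p + N)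
      have r₁ : Retract A₁ A := (⟨biprod.inl, biprod.fst, biprod.inl_fst⟩ :
        Retract _ (_ ⊞ A₂)).trans (Retract.ofIso e.symm)
      have r₂ : Retract A₂ A := (⟨biprod.inr, biprod.snd, biprod.inr_snd⟩ :
        Retract _ (A₁ ⊞ _)).trans (Retract.ofIso e.symm)
      have h5 : RLE M'.R M'.s (p + N) A₁ := fun ℓ => by
        have := le_retract (M'.s ℓ) (r₁.map (M'.R ℓ)) (h2 ℓ)
        rwa [show p + ((N + 1 : ℕ) : ℤ) - 1 = p + N by push_cast; ring] at this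
      have h6 : RGE M'.R M'.s p A₂ := fun ℓ => ge_retract (M'.s ℓ) (r₂.map (M'.R ℓ)) (h1 ℓ)
      obtain ⟨n, hn⟩ := ih p A₂ hA₂ h6 h4
      exact ⟨n + 1, A₁, A₂, ⟨p + N, hA₁, h5, h3⟩, hn, ⟨e⟩⟩
  intro A hA
  have ℓ : Λ := Classical.arbitrary Λ
  obtain ⟨m, X, hX, -, ⟨e⟩⟩ := hS.chow A hA
  obtain ⟨⟨b, hb⟩, ⟨a, ha⟩⟩ := M.bounded ℓ ((M.R ℓ).obj (m.fib.obj X))
  have h1 : ∀ ℓ', (M.s ℓ').le b ((M.R ℓ').obj (m.fib.obj X)) := fun ℓ' =>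
    (ht.le_iff ℓ' _ _).1 ((ht.le_iff ℓ _ _).2 hb)
  have h2 : ∀ ℓ', (M.s ℓ').ge a ((M.R ℓ').obj (m.fib.obj X)) := fun ℓ' =>
    (ht.ge_iff ℓ' _ _).1 ((ht.ge_iff ℓ _ _).2 ha)
  have h3 : RLE M'.R M'.s b A := RLE.of_iso e.symm fun ℓ' =>
    (m.gen_le ℓ' b X).2 ((m.fib_le ℓ' b X).1 (h1 ℓ'))
  have h4 : RGE M'.R M'.s a A := RGE.of_iso e.symm fun ℓ' =>
    (m.gen_ge ℓ' a X).2 ((m.fib_ge ℓ' a X).1 (h2 ℓ'))
  exact key (b - a + 1).toNat a A hA h4 (h3.mono (by omega))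

end

/-- **The step**: a motivic t-structure over an algebraically closed field `k` gives one over the
algebraically closed extensions of `k`. -/
theorem hasMotivicTStructure_of_spreadsOut [Nonempty Λ] (hM : IsGeometric M 𝒞)
    (hM' : IsGeometric M' 𝒞') (hS : SpreadsOut M M' 𝒞 𝒞')
    (h : M.toRealised.HasMotivicTStructure) : M'.toRealised.HasMotivicTStructure := by
  obtain ⟨t, ht⟩ := exists_good h
  have ℓ : Λ := Classical.arbitrary Λ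
  rw [hasMotivicTStructure_iff]
  have hK := hS.kunneth ht hM hM'
  have hsu := hM'.setup
  have htfae := tfae_of_chow ℚ hsu.scalar hsu.bounded hsu.tensorExact hsu.unit_ne hsu.unit_simple
    hsu.oddFinite (chow_of_setup hsu) fun _ => hK
  have h20 := htfae.out 2 0
  refine h20.1 ⟨hK, ?_, ℓ, ?_, ?_⟩
  · intro X d hX n hn f
    have hu : RLE M'.R M'.s 0 (𝟙_ M'.T) := fun ℓ' =>
      ((M'.s ℓ').le 0).prop_of_iso (Functor.Monoidal.εIso (M'.R ℓ')) (hsu.unit_simple ℓ').1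
    exact hS.hom_zero ht (b := d - n) (by omega) hu (hX.2.2.shift (by ring)) f
  · exact reflects_of_isZero (M'.R ℓ) fun X hX => hS.isZero ht ℓ hX
  · intro X d hX g hg
    have hu : RGE M'.R M'.s 0 (𝟙_ M'.T) := fun ℓ' =>
      ((M'.s ℓ').ge 0).prop_of_iso (Functor.Monoidal.εIso (M'.R ℓ')) (hsu.unit_simple ℓ').2.1
    exact hS.faithful ht ℓ (hX.2.1.shift (by ring)) hu g hg

end Pool.Agent.KS6_13.PF
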